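import Mathlib

/-!
# Hessenberg pairs: definitions

The one-sided tridiagonal (Hessenberg-type) pairs of problem MP_d2cf4a_al.
-/

namespace Pool.Agent.H86.Hessenberg

variable {K V : Type*} [Field K] [AddCommGroup V] [Module K V]

/-- Conditions 1-4 of the problem, with fixed orderings of the eigenspaces.
`θ 0, …, θ d` is a list without repetitions of all the eigenvalues of `A`, so that
`V_i = A.eigenspace (θ i)`, `0 ≤ i ≤ d`, is an ordering of the eigenspaces of `A`; likewise
`θs 0, …, θs δ` for `As`, with `V*_i = As.eigenspace (θs i)`. -/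
structure IsHessenbergPair (A As : Module.End K V) {d δ : ℕ}
    (θ : Fin (d + 1) → K) (θs : Fin (δ + 1) → K) : Prop where
  /-- `A` is diagonalizable -/
  diag : ⨆ μ : K, A.eigenspace μ = ⊤
  /-- `A*` is diagonalizable -/
  diag_star : ⨆ μ : K, As.eigenspace μ = ⊤
  /-- the listed eigenvalues of `A` are distinct -/
  inj : Function.Injective θ
  /-- the listed scalars are exactly the eigenvalues of `A` -/
  eig : ∀ μ : K, A.HasEigenvalue μ ↔ μ ∈ Set.range θ
  /-- the listed eigenvalues of `A*` are distinct -/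
  inj_star : Function.Injective θs
  /-- the listed scalars are exactly the eigenvalues of `A*` -/
  eig_star : ∀ μ : K, As.HasEigenvalue μ ↔ μ ∈ Set.range θs
  /-- `A* V_i ⊆ V_0 + ⋯ + V_{i+1}` (with `V_{d+1} = 0`) -/
  hess : ∀ i : Fin (d + 1), (A.eigenspace (θ i)).map As ≤
    ⨆ j : Fin (d + 1), ⨆ _ : (j : ℕ) ≤ (i : ℕ) + 1, A.eigenspace (θ j)
  /-- `A V*_i ⊆ V*_0 + ⋯ + V*_{i+1}` (with `V*_{δ+1} = 0`) -/
  hess_star : ∀ i : Fin (δ + 1), (As.eigenspace (θs i)).map A ≤
    ⨆ j : Fin (δ + 1), ⨆ _ : (j : ℕ) ≤ (i : ℕ) + 1, As.eigenspace (θs j)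
  /-- irreducibility -/
  irr : ∀ W : Submodule K V, W.map A ≤ W → W.map As ≤ W → W = ⊥ ∨ W = ⊤

end Pool.Agent.H86.Hessenberg
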